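import Pool.Agent.Work.MP_4b551e_an.Asm.Final
import Pool.Agent.Work.MP_4b551e_an.LinkH1

/-!
# MP_4b551e_an, Q1: annuli maximise the first Robin eigenvalue for very negative parameter

The definitions used by the statement are in `Pool.Agent.Work.MP_4b551e_an.Stmt`.
-/

open MeasureTheory Pool.Agent.RobinH

namespace Pool.Agent.Results.MP_4b551e_an.AnnulusOptimal

/-- For every area `A` there is `α₀ < 0` such that for every `α < α₀` some annulus of area `A`
maximises the first Robin eigenvalue among all bounded connected open sets with Lipschitz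
boundary of area `A`. -/
theorem result : ∀ A : ℝ, 0 < A → ∃ α₀ : ℝ, α₀ < 0 ∧ ∀ α : ℝ, α < α₀ →
    ∃ r R : ℝ, 0 < r ∧ r < R ∧ Admissible (annulus r R) ∧
      volume (annulus r R) = ENNReal.ofReal A ∧
      ∀ Ω : Set Plane, Admissible Ω → volume Ω = ENNReal.ofReal A →
        robinEigenvalue α Ω ≤ robinEigenvalue α (annulus r R) :=
  main_of_main Pool.Agent.Robin.mainTheorem

end Pool.Agent.Results.MP_4b551e_an.AnnulusOptimal
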